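import Pool.Agent.helper55.FPZ.SpecZ

set_option autoImplicit false

namespace Pool.Agent.FPZ

open Matrix Polynomial Pool.Agent.PL Pool.Agent.X4

theorem KE_aeval {σ : Type} {K : Type} [Field K] [CharZero K] (τ : QB →+* K) (x : σ → K)
    (f : MvPolynomial σ ℚ) :
    MvPolynomial.eval₂ τ x (MvPolynomial.map (algebraMap ℚ QB) f) = MvPolynomial.aeval x f := by
  rw [MvPolynomial.eval₂_map, MvPolynomial.aeval_def]
  have h : τ.comp (algebraMap ℚ QB) = algebraMap ℚ K := Subsingleton.elim _ _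
  rw [h]

theorem KE_zero {σ : Type} [Finite σ] (p : Ideal (MvPolynomial σ QB)) (hp : p ≠ ⊤) :
    ∃ y : σ → QB, ∀ f ∈ p, MvPolynomial.eval y f = 0 := by
  obtain ⟨M, hM, hle⟩ := Ideal.exists_le_maximal p hp
  obtain ⟨y, hy⟩ := MvPolynomial.isMaximal_iff_eq_vanishingIdeal_singleton.1 hM
  refine ⟨y, fun f hf => ?_⟩
  have h1 : f ∈ M := hle hf
  rw [hy, MvPolynomial.mem_vanishingIdeal_singleton_iff] at h1
  simpa using h1

theorem KE : KE_stmt := by
  intro σ _ I
  classical
  let J : Ideal (MvPolynomial σ QB) := Ideal.span (MvPolynomial.map (algebraMap ℚ QB) '' I)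
  have hfin : J.minimalPrimes.Finite := Ideal.finite_minimalPrimes_of_isNoetherianRing _ J
  have hJ : ∀ f ∈ I, MvPolynomial.map (algebraMap ℚ QB) f ∈ J := fun f hf =>
    Ideal.subset_span ⟨f, hf, rfl⟩
  have hex : ∀ p ∈ J.minimalPrimes, ∃ y : σ → QB, ∀ f ∈ p, MvPolynomial.eval y f = 0 := by
    intro p hp
    exact KE_zero p hp.1.1.ne_top
  choose! Y hY using hex
  refine ⟨hfin.toFinset.image Y, ?_, ?_⟩
  · intro y hy f hf
    rw [Finset.mem_image] at hy
    obtain ⟨p, hp, rfl⟩ := hy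
    have hp' := hfin.mem_toFinset.1 hp
    have h1 := hY p hp' _ (hp'.1.2 (hJ f hf))
    rw [← KE_aeval (RingHom.id QB) (Y p) f]
    exact h1
  · intro K _ _ τ x hx
    let φ : MvPolynomial σ QB →+* K := MvPolynomial.eval₂Hom τ x
    have hker : J ≤ RingHom.ker φ := by
      rw [Ideal.span_le]
      rintro _ ⟨f, hf, rfl⟩
      change MvPolynomial.eval₂ τ x (MvPolynomial.map (algebraMap ℚ QB) f) = 0
      rw [KE_aeval, hx f hf]
    have : (RingHom.ker φ).IsPrime := RingHom.ker_isPrime φ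
    obtain ⟨p, hp, hple⟩ := Ideal.exists_minimalPrimes_le hker
    have hpp : p.IsPrime := hp.1.1
    let K' := FractionRing (MvPolynomial σ QB ⧸ p)
    let ψ : MvPolynomial σ QB →+* K' :=
      (algebraMap (MvPolynomial σ QB ⧸ p) K').comp (Ideal.Quotient.mk p)
    have hψ : ∀ f, ψ f = 0 → f ∈ p := by
      intro f hf
      have h1 : algebraMap (MvPolynomial σ QB ⧸ p) K' (Ideal.Quotient.mk p f) = 0 := hf
      rw [← Ideal.Quotient.eq_zero_iff_mem]
      exact (IsFractionRing.injective (MvPolynomial σ QB ⧸ p) K') (by rw [h1, map_zero])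
    let τ' : QB →+* K' := ψ.comp MvPolynomial.C
    have hev : ∀ f : MvPolynomial σ QB,
        MvPolynomial.eval₂ τ' (fun i => ψ (MvPolynomial.X i)) f = ψ f := by
      intro f
      have h1 := MvPolynomial.eval₂_comp_left ψ MvPolynomial.C MvPolynomial.X f
      rw [MvPolynomial.eval₂_eta] at h1
      exact h1.symm
    have hc : CharZero K' := charZero_of_injective_ringHom τ'.injective
    refine ⟨Y p, Finset.mem_image.2 ⟨p, hfin.mem_toFinset.2 hp, rfl⟩, K', inferInstance, hc, τ',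
      fun i => ψ (MvPolynomial.X i), ?_, ?_⟩
    · intro f hf
      rw [← KE_aeval τ', hev]
      change algebraMap (MvPolynomial σ QB ⧸ p) K' (Ideal.Quotient.mk p _) = 0
      rw [Ideal.Quotient.eq_zero_iff_mem.2 (hp.1.2 (hJ f hf)), map_zero]
    · intro f hf
      rw [hev] at hf
      have hfp := hψ f hf
      exact ⟨hple hfp, hY p hp f hfp⟩

end Pool.Agent.FPZ
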